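import Mathlib

/-!
# Sequences of ideals and the cofin invariants: definitions and basic lemmas
-/

namespace Pool.Agent.R165.Cof

open Set Filter Topology Cardinal Ordinal

/-- Closed under taking subsets. -/
def IsLowerFamily {X : Type*} (I : Set (Set X)) : Prop := ∀ A ∈ I, ∀ B, B ⊆ A → B ∈ I

/-- Ideals: closed under finite unions (so containing `∅`) and under taking subsets. -/
def IsIdeal {X : Type*} (I : Set (Set X)) : Prop :=
  ∅ ∈ I ∧ IsLowerFamily I ∧ ∀ A ∈ I, ∀ B ∈ I, A ∪ B ∈ I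

/-- `σ`-ideals: ideals closed under countable unions. -/
def IsSigmaIdeal {X : Type*} (I : Set (Set X)) : Prop :=
  IsIdeal I ∧ ∀ A : ℕ → Set X, (∀ n, A n ∈ I) → (⋃ n, A n) ∈ I

/-- Borel `σ`-ideals: every member is contained in a Borel member. -/
def IsBorelSigmaIdeal {X : Type*} [MeasurableSpace X] (I : Set (Set X)) : Prop :=
  IsSigmaIdeal I ∧ ∀ A ∈ I, ∃ B ∈ I, MeasurableSet B ∧ A ⊆ B

/-- `γ` is a limit ordinal and there is a strictly increasing sequence of length `γ` of families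
with the property `Q`, the first one with the property `Q0`, whose union is `I`. -/
def HasSeq {X : Type} (Q Q0 : Set (Set X) → Prop) (I : Set (Set X)) (γ : Ordinal.{0}) : Prop :=
  Order.IsSuccLimit γ ∧ ∃ F : Ordinal.{0} → Set (Set X),
    (∀ α < γ, Q (F α)) ∧ Q0 (F 0) ∧ (∀ α β, α < β → β < γ → F α ⊂ F β) ∧
    I = {A | ∃ α < γ, A ∈ F α}

open Classical in
/-- The least length of a sequence as in `HasSeq`, `⊤` if there is none. -/
noncomputable def cofinWith {X : Type} (Q Q0 : Set (Set X) → Prop) (I : Set (Set X)) :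
    WithTop Ordinal.{0} :=
  if ∃ γ, HasSeq Q Q0 I γ then ((sInf {γ | HasSeq Q Q0 I γ} : Ordinal.{0}) : WithTop Ordinal.{0})
  else ⊤

/-- `cofin`: all families are `σ`-ideals. -/
noncomputable def cofin {X : Type} (I : Set (Set X)) : WithTop Ordinal.{0} :=
  cofinWith IsSigmaIdeal (fun _ => True) I

/-- `cofin⁻`: all families are ideals. -/
noncomputable def cofinMinus {X : Type} (I : Set (Set X)) : WithTop Ordinal.{0} :=
  cofinWith IsIdeal (fun _ => True) I

/-- `cofin*`: all families are closed under taking subsets. -/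
noncomputable def cofinStar {X : Type} (I : Set (Set X)) : WithTop Ordinal.{0} :=
  cofinWith IsLowerFamily (fun _ => True) I

/-- `cofin⁺`: all families are `σ`-ideals and the first one contains all singletons. -/
noncomputable def cofinPlus {X : Type} (I : Set (Set X)) : WithTop Ordinal.{0} :=
  cofinWith IsSigmaIdeal (fun F => ∀ x : X, {x} ∈ F) I

/-- Eventual domination. -/
def LeStar (f g : ℕ → ℕ) : Prop := ∀ᶠ k in atTop, f k ≤ g k

/-- The bounding number `𝔟`. -/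
noncomputable def bnum : Cardinal.{0} :=
  sInf {κ | ∃ F : Set (ℕ → ℕ), Cardinal.mk F = κ ∧ ¬ ∃ g, ∀ f ∈ F, LeStar f g}

/-- Groupwise dense families of infinite subsets of `ℕ`: closed under almost subsets, and for
every partition of `ℕ` into finite intervals `[a m, a (m + 1))` some union of infinitely many
intervals belongs to the family. -/
def GroupwiseDense (G : Set (Set ℕ)) : Prop :=
  (∀ Z ∈ G, Z.Infinite) ∧ (∀ Z ∈ G, ∀ Y : Set ℕ, Y.Infinite → (Y \ Z).Finite → Y ∈ G) ∧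
    ∀ a : ℕ → ℕ, StrictMono a → a 0 = 0 → ∃ M : Set ℕ, M.Infinite ∧
      (⋃ m ∈ M, Ico (a m) (a (m + 1))) ∈ G

/-- The groupwise density number `𝔤`. -/
noncomputable def gnum : Cardinal.{0} :=
  sInf {κ | ∃ U : Set (Set (Set ℕ)), Cardinal.mk U = κ ∧ (∀ G ∈ U, GroupwiseDense G) ∧
    ¬ ∃ Z, ∀ G ∈ U, Z ∈ G}

section

variable {X : Type} {Q Q0 : Set (Set X) → Prop} {I : Set (Set X)}

theorem cofinWith_le {γ : Ordinal.{0}} (h : HasSeq Q Q0 I γ) : cofinWith Q Q0 I ≤ γ := by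
  classical
  have hex : ∃ γ, HasSeq Q Q0 I γ := ⟨γ, h⟩
  unfold cofinWith
  rw [if_pos hex]
  exact WithTop.coe_le_coe.mpr (csInf_le' h)

theorem lt_top_of {γ : Ordinal.{0}} (h : HasSeq Q Q0 I γ) : cofinWith Q Q0 I < ⊤ :=
  (cofinWith_le h).trans_lt (WithTop.coe_lt_top γ)

theorem le_cofinWith {δ : Ordinal.{0}} (h : ∀ γ, HasSeq Q Q0 I γ → δ ≤ γ) :
    (δ : WithTop Ordinal.{0}) ≤ cofinWith Q Q0 I := by
  classical
  unfold cofinWith
  split_ifs with hex
  · exact WithTop.coe_le_coe.mpr (le_csInf hex h)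
  · exact le_top

theorem cofinWith_eq_top (h : ∀ γ, ¬ HasSeq Q Q0 I γ) : cofinWith Q Q0 I = ⊤ := by
  classical
  unfold cofinWith
  rw [if_neg]
  rintro ⟨γ, hγ⟩
  exact h γ hγ

/-- Thinning out a weakly increasing sequence. -/
theorem exists_hasSeq {ι : Type} [LinearOrder ι] [WellFoundedLT ι] [Nonempty ι]
    (F : ι → Set (Set X)) (hQ : ∀ i, Q (F i)) (hQ0 : ∀ i, Q0 (F i)) (hm : Monotone F)
    (hU : I = {A | ∃ i, A ∈ F i}) (hne : ∀ i, F i ≠ I) :
    ∃ γ, HasSeq Q Q0 I γ ∧ γ ≤ type (α := ι) (· < ·) := by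
  classical
  have hsub : ∀ i, F i ⊆ I := by
    intro i A hA
    rw [hU]
    exact ⟨i, hA⟩
  set S : Set ι := {i | ∀ j < i, F j ≠ F i} with hS
  have hwf : WellFounded ((· < ·) : ι → ι → Prop) := wellFounded_lt
  have hrep : ∀ i, ∃ j ∈ S, F j = F i := by
    intro i
    obtain ⟨j, hj, hjm⟩ := hwf.has_min {j | F j = F i} ⟨i, rfl⟩
    refine ⟨j, fun k hk hkj => ?_, hj⟩
    exact hjm k (hkj.trans hj) hk
  have hnomax : ∀ i ∈ S, ∃ j ∈ S, i < j := by
    intro i _
    have h1 : ∃ A ∈ I, A ∉ F i := by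
      by_contra hcon
      push Not at hcon
      exact hne i ((hsub i).antisymm hcon)
    obtain ⟨A, hAI, hA⟩ := h1
    rw [hU] at hAI
    obtain ⟨j, hj⟩ := hAI
    obtain ⟨k, hkS, hk⟩ := hrep j
    refine ⟨k, hkS, ?_⟩
    by_contra hlt
    rw [← hk] at hj
    exact hA (hm (not_lt.mp hlt) hj)
  have hstrict : ∀ i ∈ S, ∀ j ∈ S, i < j → F i ⊂ F j := by
    intro i _ j hj hij
    exact (hm hij.le).ssubset_of_ne (hj i hij)
  let r : S → S → Prop := (· < ·)
  have hSne : Nonempty S := by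
    obtain ⟨i⟩ := ‹Nonempty ι›
    obtain ⟨j, hj, _⟩ := hrep i
    exact ⟨⟨j, hj⟩⟩
  let F' : Ordinal.{0} → Set (Set X) := fun ξ =>
    if h : ξ ∈ Iio (type r) then F (enum r ⟨ξ, h⟩ : S) else univ
  have hF' : ∀ (ξ : Ordinal.{0}) (h : ξ ∈ Iio (type r)), F' ξ = F (enum r ⟨ξ, h⟩ : S) :=
    fun ξ h => dif_pos h
  have hlt : ∀ (ξ η : Ordinal.{0}) (hξ : ξ ∈ Iio (type r)) (hη : η ∈ Iio (type r)), ξ < η →
      (enum r ⟨ξ, hξ⟩ : S) < enum r ⟨η, hη⟩ := by
    intro ξ η hξ hη h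
    exact (enum r).map_rel_iff.mpr (Subtype.mk_lt_mk.mpr h)
  refine ⟨type r, ⟨?_, F', ?_, ?_, ?_, ?_⟩, ?_⟩
  · rw [isSuccLimit_iff]
    constructor
    · exact type_ne_zero_of_nonempty r
    · refine Order.isSuccPrelimit_of_succ_lt fun ξ hξ => ?_
      obtain ⟨j, hjS, hj⟩ := hnomax _ (enum r ⟨ξ, hξ⟩ : S).2
      have h1 : typein r (enum r ⟨ξ, hξ⟩) < typein r (⟨j, hjS⟩ : S) :=
        (typein_lt_typein r).mpr hj
      rw [typein_enum] at h1
      exact (Order.succ_le_of_lt h1).trans_lt (typein_lt_type r _)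
  · intro α hα
    rw [hF' α hα]
    exact hQ _
  · have h0 : (0 : Ordinal.{0}) < type r := by
      rw [pos_iff_ne_zero]
      exact type_ne_zero_of_nonempty r
    rw [hF' 0 h0]
    exact hQ0 _
  · intro α β hαβ hβ
    rw [hF' β hβ, hF' α (hαβ.trans hβ)]
    exact hstrict _ (Subtype.coe_prop _) _ (Subtype.coe_prop _) (hlt _ _ _ _ hαβ)
  · ext A
    rw [hU, mem_ofPred_eq, mem_ofPred_eq]
    constructor
    · rintro ⟨i, hi⟩
      obtain ⟨j, hjS, hj⟩ := hrep i
      refine ⟨typein r ⟨j, hjS⟩, typein_lt_type r _, ?_⟩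
      rw [hF' _ (typein_lt_type r _), enum_typein]
      rw [hj]
      exact hi
    · rintro ⟨α, hα, hA⟩
      rw [hF' α hα] at hA
      exact ⟨_, hA⟩
  · exact type_le_iff'.mpr ⟨Subtype.relEmbedding (· < ·) S⟩

end

/-! ## Transfer along an equivalence -/

section Transfer

variable {X Y : Type}

/-- Transport of a family along an equivalence. -/
def pull (e : X ≃ Y) (F : Set (Set X)) : Set (Set Y) := {B | e ⁻¹' B ∈ F}

theorem pull_pull (e : X ≃ Y) (F : Set (Set X)) : pull e.symm (pull e F) = F := by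
  ext A
  have h : e ⁻¹' (e.symm ⁻¹' A) = A := by
    ext x
    simp
  change e ⁻¹' (e.symm ⁻¹' A) ∈ F ↔ A ∈ F
  rw [h]

theorem pull_injective (e : X ≃ Y) : Function.Injective (pull e) := by
  intro F G h
  rw [← pull_pull e F, ← pull_pull e G, h]

theorem pull_lower (e : X ≃ Y) {F : Set (Set X)} (h : IsLowerFamily F) :
    IsLowerFamily (pull e F) := fun A hA _ hB => h (e ⁻¹' A) hA _ (preimage_mono hB)

theorem pull_ideal (e : X ≃ Y) {F : Set (Set X)} (h : IsIdeal F) : IsIdeal (pull e F) := by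
  refine ⟨?_, pull_lower e h.2.1, fun A hA B hB => ?_⟩
  · change e ⁻¹' ∅ ∈ F
    rw [preimage_empty]
    exact h.1
  · change e ⁻¹' (A ∪ B) ∈ F
    rw [preimage_union]
    exact h.2.2 _ hA _ hB

theorem pull_sigma (e : X ≃ Y) {F : Set (Set X)} (h : IsSigmaIdeal F) :
    IsSigmaIdeal (pull e F) := by
  refine ⟨pull_ideal e h.1, fun A hA => ?_⟩
  change e ⁻¹' (⋃ n, A n) ∈ F
  rw [preimage_iUnion]
  exact h.2 _ hA

theorem pull_singleton (e : X ≃ Y) {F : Set (Set X)} (h : ∀ x : X, {x} ∈ F) :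
    ∀ y : Y, {y} ∈ pull e F := by
  intro y
  change e ⁻¹' {y} ∈ F
  have : e ⁻¹' {y} = {e.symm y} := by
    ext x
    simp [Equiv.eq_symm_apply]
  rw [this]
  exact h _

theorem pull_borel [MeasurableSpace X] [MeasurableSpace Y] (e : X ≃ᵐ Y) {F : Set (Set X)}
    (h : IsBorelSigmaIdeal F) : IsBorelSigmaIdeal (pull e.toEquiv F) := by
  refine ⟨pull_sigma _ h.1, fun A hA => ?_⟩
  obtain ⟨B, hB, hBm, hAB⟩ := h.2 _ hA
  refine ⟨e.symm ⁻¹' B, ?_, e.symm.measurable hBm, ?_⟩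
  · change e.toEquiv ⁻¹' (e.symm ⁻¹' B) ∈ F
    have h2 : e.toEquiv ⁻¹' (e.symm ⁻¹' B) = B := by
      ext x
      simp
    rw [h2]
    exact hB
  · intro y hy
    refine hAB ?_
    simpa using hy

theorem hasSeq_pull (e : X ≃ Y) {Q Q0 : Set (Set X) → Prop} {Q' Q0' : Set (Set Y) → Prop}
    (hQ : ∀ F, Q F → Q' (pull e F)) (hQ0 : ∀ F, Q0 F → Q0' (pull e F)) {I : Set (Set X)}
    {γ : Ordinal.{0}} (h : HasSeq Q Q0 I γ) : HasSeq Q' Q0' (pull e I) γ := by
  obtain ⟨hγ, F, h1, h2, h3, h4⟩ := h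
  refine ⟨hγ, fun α => pull e (F α), fun α hα => hQ _ (h1 α hα), hQ0 _ h2, ?_, ?_⟩
  · intro α β hαβ hβ
    have h5 := h3 α β hαβ hβ
    exact ssubset_of_subset_of_ne (fun A hA => h5.subset hA)
      fun h => h5.ne (pull_injective e h)
  · ext A
    change e ⁻¹' A ∈ I ↔ ∃ α < γ, e ⁻¹' A ∈ F α
    rw [h4]
    rfl

theorem cofinWith_pull (e : X ≃ Y) {Q Q0 : Set (Set X) → Prop} {Q' Q0' : Set (Set Y) → Prop}
    (hQ : ∀ F, Q F → Q' (pull e F)) (hQ0 : ∀ F, Q0 F → Q0' (pull e F))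
    (hQ' : ∀ F, Q' F → Q (pull e.symm F)) (hQ0' : ∀ F, Q0' F → Q0 (pull e.symm F))
    (I : Set (Set X)) : cofinWith Q' Q0' (pull e I) = cofinWith Q Q0 I := by
  have h : ∀ γ, HasSeq Q' Q0' (pull e I) γ ↔ HasSeq Q Q0 I γ := by
    intro γ
    constructor
    · intro h
      have := hasSeq_pull e.symm hQ' hQ0' h
      rwa [pull_pull] at this
    · exact hasSeq_pull e hQ hQ0
  have e1 : (∃ γ, HasSeq Q' Q0' (pull e I) γ) ↔ ∃ γ, HasSeq Q Q0 I γ := exists_congr h
  have e2 : {γ | HasSeq Q' Q0' (pull e I) γ} = {γ | HasSeq Q Q0 I γ} := by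
    ext γ
    exact h γ
  unfold cofinWith
  rw [e2]
  classical
  exact if_congr e1 rfl rfl

theorem cofin_pull (e : X ≃ Y) (I : Set (Set X)) : cofin (pull e I) = cofin I :=
  cofinWith_pull e (fun _ => pull_sigma e) (fun _ _ => trivial) (fun _ => pull_sigma e.symm)
    (fun _ _ => trivial) I

theorem cofinMinus_pull (e : X ≃ Y) (I : Set (Set X)) : cofinMinus (pull e I) = cofinMinus I :=
  cofinWith_pull e (fun _ => pull_ideal e) (fun _ _ => trivial) (fun _ => pull_ideal e.symm)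
    (fun _ _ => trivial) I

theorem cofinStar_pull (e : X ≃ Y) (I : Set (Set X)) : cofinStar (pull e I) = cofinStar I :=
  cofinWith_pull e (fun _ => pull_lower e) (fun _ _ => trivial) (fun _ => pull_lower e.symm)
    (fun _ _ => trivial) I

theorem cofinPlus_pull (e : X ≃ Y) (I : Set (Set X)) : cofinPlus (pull e I) = cofinPlus I :=
  cofinWith_pull e (fun _ => pull_sigma e) (fun _ => pull_singleton e)
    (fun _ => pull_sigma e.symm) (fun _ => pull_singleton e.symm) I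

end Transfer

end Pool.Agent.R165.Cof
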