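import Pool.Agent.R165.Cof.Defs

/-!
# The groupwise density lemma
-/

namespace Pool.Agent.R165.Cof

open Set Filter Topology Cardinal Ordinal

/-- `x k ≤ f k` for infinitely many `k`. -/
def Bs (f : ℕ → ℕ) : Set (ℕ → ℕ) := {x | ∃ᶠ k in atTop, x k ≤ f k}

/-- The first `n` coordinates belong to `Bs f`. -/
def Bn (n : ℕ) (f : ℕ → ℕ) : Set (ℕ → ℕ → ℕ) := {x | ∀ i < n, x i ∈ Bs f}

theorem Bs_mono {f g : ℕ → ℕ} (h : LeStar f g) : Bs f ⊆ Bs g := by
  intro x hx
  exact (Frequently.and_eventually hx h).mono fun k hk => hk.1.trans hk.2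

theorem Bn_mono {f g : ℕ → ℕ} (h : LeStar f g) (n : ℕ) : Bn n f ⊆ Bn n g :=
  fun _ hx i hi => Bs_mono h (hx i hi)

/-- A witness of `¬ f ≤* g`. -/
theorem exists_mem_diff {f g : ℕ → ℕ} (h : ¬ LeStar f g) : ∃ x, x ∈ Bs f ∧ x ∉ Bs g := by
  classical
  refine ⟨fun k => if g k < f k then f k else g k + 1, ?_, ?_⟩
  · have h1 : ∃ᶠ k in atTop, g k < f k := by
      unfold LeStar at h
      rw [not_eventually] at h
      exact h.mono fun k hk => not_le.mp hk
    refine h1.mono fun k hk => ?_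
    change (if g k < f k then f k else g k + 1) ≤ f k
    rw [if_pos hk]
  · intro h1
    obtain ⟨k, hk⟩ := Frequently.exists h1
    change (if g k < f k then f k else g k + 1) ≤ g k at hk
    split_ifs at hk with h2
    · omega
    · omega

theorem self_mem_Bs (f : ℕ → ℕ) : f ∈ Bs f :=
  (Eventually.of_forall fun _ => le_rfl).frequently

/-- Index functions of strictly increasing sequences. -/
theorem exists_idx {a : ℕ → ℕ} (ha : StrictMono a) (h0 : a 0 = 0) :
    ∃ idx : ℕ → ℕ, ∀ k m, idx k = m ↔ k ∈ Ico (a m) (a (m + 1)) := by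
  have hex : ∀ k, ∃ m, k < a (m + 1) := fun k => ⟨k, lt_of_lt_of_le (Nat.lt_succ_self k)
    (ha.id_le (k + 1))⟩
  classical
  refine ⟨fun k => Nat.find (hex k), fun k m => ?_⟩
  have h1 := Nat.find_spec (hex k)
  have h2 : a (Nat.find (hex k)) ≤ k := by
    rcases Nat.eq_zero_or_pos (Nat.find (hex k)) with h | h
    · rw [h, h0]
      exact Nat.zero_le k
    · obtain ⟨j, hj⟩ : ∃ j, Nat.find (hex k) = j + 1 := ⟨Nat.find (hex k) - 1, by omega⟩
      have h3 := Nat.find_min (hex k) (m := j) (by omega)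
      rw [hj]
      exact not_lt.mp h3
  constructor
  · rintro rfl
    exact ⟨h2, h1⟩
  · rintro ⟨h3, h4⟩
    rcases lt_trichotomy (Nat.find (hex k)) m with h | h | h
    · have := ha.monotone (show Nat.find (hex k) + 1 ≤ m from h)
      omega
    · exact h
    · have := ha.monotone (show m + 1 ≤ Nat.find (hex k) from h)
      omega

/-- The next element function of an infinite set. -/
noncomputable def nxt (Z : Set ℕ) (k : ℕ) : ℕ := sInf {x | x ∈ Z ∧ k ≤ x}

theorem nxt_spec {Z : Set ℕ} (hZ : Z.Infinite) (k : ℕ) : nxt Z k ∈ Z ∧ k ≤ nxt Z k := by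
  obtain ⟨x, hx, hkx⟩ := hZ.exists_gt k
  exact Nat.sInf_mem (s := {x | x ∈ Z ∧ k ≤ x}) ⟨x, hx, hkx.le⟩

theorem nxt_le {Z : Set ℕ} {k x : ℕ} (hx : x ∈ Z) (hk : k ≤ x) : nxt Z k ≤ x :=
  Nat.sInf_le ⟨hx, hk⟩

theorem nxt_almost {Z Y : Set ℕ} (hY : Y.Infinite) (h : (Y \ Z).Finite) :
    LeStar (nxt Z) (nxt Y) := by
  obtain ⟨B, hB⟩ := h.bddAbove
  filter_upwards [eventually_gt_atTop B] with k hk
  obtain ⟨h1, h2⟩ := nxt_spec hY k
  refine nxt_le ?_ h2
  by_contra h3
  have := hB ⟨h1, h3⟩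
  omega

/-- The families used with `𝔤` are groupwise dense. -/
theorem groupwiseDense {n : ℕ} {I : Set (Set (ℕ → ℕ → ℕ))} (hI : IsIdeal I) {f : ℕ → ℕ}
    (hf : Monotone f) (hfI : Bn n f ∉ I) :
    GroupwiseDense {Z : Set ℕ | Z.Infinite ∧ Bn n (nxt Z) ∉ I} := by
  classical
  refine ⟨fun Z hZ => hZ.1, fun Z hZ Y hY hYZ => ⟨hY, fun h => hZ.2 ?_⟩, fun a ha ha0 => ?_⟩
  · exact hI.2.1 _ h _ (Bn_mono (nxt_almost hY hYZ) n)
  -- coarser intervals
  let s : ℕ → ℕ := fun m => Nat.rec 0 (fun _ s => max (s + 1) (f (a s))) m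
  have hs : ∀ m, s (m + 1) = max (s m + 1) (f (a (s m))) := fun m => rfl
  have hsm : StrictMono s := strictMono_nat_of_lt_succ fun m => by
    rw [hs]
    omega
  obtain ⟨ia, hia⟩ := exists_idx ha ha0
  obtain ⟨is, his⟩ := exists_idx hsm rfl
  have hloc : ∀ k, a (s (is (ia k))) ≤ k ∧ k < a (s (is (ia k) + 1)) := by
    intro k
    obtain ⟨h1, h2⟩ := (hia k _).mp rfl
    obtain ⟨h3, h4⟩ := (his (ia k) _).mp rfl
    exact ⟨(ha.monotone h3).trans h1, h2.trans_le (ha.monotone h4)⟩
  have hfp : ∀ k, f k ≤ a (s (is (ia k) + 2)) := by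
    intro k
    have h1 := hf (hloc k).2.le
    refine h1.trans (le_trans ?_ (ha.id_le _))
    rw [hs (is (ia k) + 1)]
    exact le_max_right _ _
  have hmono : Monotone fun k => is (ia k) := by
    intro k l hkl
    by_contra hlt
    have hlt' : is (ia l) + 1 ≤ is (ia k) := not_le.mp hlt
    have h1 := ha.monotone (hsm.monotone hlt')
    have h2 := (hloc l).2
    have h3 := (hloc k).1
    omega
  set N := 2 * n + 1 with hN
  let Zc : Finset (ZMod N) → Set ℕ := fun c => {k | (is (ia k) : ZMod N) ∈ c}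
  let Mc : Finset (ZMod N) → Set ℕ := fun c => {i | (is i : ZMod N) ∈ c}
  have hZM : ∀ c, Zc c = ⋃ m ∈ Mc c, Ico (a m) (a (m + 1)) := by
    intro c
    ext k
    rw [mem_iUnion₂]
    constructor
    · intro hk
      exact ⟨ia k, hk, (hia k _).mp rfl⟩
    · rintro ⟨m, hm, hk⟩
      have h1 := (hia k m).mpr hk
      change (is (ia k) : ZMod N) ∈ c
      rw [h1]
      exact hm
  have hisv : ∀ m, is (s m) = m := fun m => (his (s m) m).mpr ⟨le_rfl, hsm (Nat.lt_succ_self m)⟩
  have hNpos : 0 < N := by omega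
  have : NeZero N := ⟨hNpos.ne'⟩
  have hMinf : ∀ c : Finset (ZMod N), c.Nonempty → (Mc c).Infinite := by
    rintro c ⟨r, hr⟩
    refine Set.infinite_of_forall_exists_gt fun b => ?_
    refine ⟨s (r.val + N * (b + 1)), ?_, ?_⟩
    · change (is (s (r.val + N * (b + 1))) : ZMod N) ∈ c
      rw [hisv]
      push_cast
      rw [ZMod.natCast_self, zero_mul, add_zero, ZMod.natCast_zmod_val]
      exact hr
    · have hid : r.val + N * (b + 1) ≤ s (r.val + N * (b + 1)) := hsm.id_le _
      have : b + 1 ≤ N * (b + 1) := Nat.le_mul_of_pos_left _ hNpos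
      omega
  have hZinf : ∀ c : Finset (ZMod N), c.Nonempty → (Zc c).Infinite := by
    intro c hc
    refine Set.infinite_of_forall_exists_gt fun b => ?_
    obtain ⟨m, hm, hbm⟩ := (hMinf c hc).exists_gt b
    refine ⟨a m, ?_, lt_of_lt_of_le hbm (ha.id_le m)⟩
    rw [hZM, mem_iUnion₂]
    exact ⟨m, hm, le_rfl, ha (Nat.lt_succ_self m)⟩
  have hbig : ∀ c : Finset (ZMod N), c.Nonempty → ∀ k, (is (ia k) : ZMod N) ∉ c →
      (is (ia k) : ZMod N) + 1 ∉ c → f k ≤ nxt (Zc c) k := by
    intro c hc k h1 h2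
    obtain ⟨h3, h4⟩ := nxt_spec (hZinf c hc) k
    have h5 : (is (ia (nxt (Zc c) k)) : ZMod N) ∈ c := h3
    have h6 : is (ia k) ≤ is (ia (nxt (Zc c) k)) := hmono h4
    have h7 : is (ia (nxt (Zc c) k)) ≠ is (ia k) := by
      intro h
      rw [h] at h5
      exact h1 h5
    have h8 : is (ia (nxt (Zc c) k)) ≠ is (ia k) + 1 := by
      intro h
      rw [h] at h5
      push_cast at h5
      exact h2 h5
    have h9 : is (ia k) + 2 ≤ is (ia (nxt (Zc c) k)) := by omega
    exact (hfp k).trans ((ha.monotone (hsm.monotone h9)).trans (hloc _).1)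
  -- the covering
  have hcov : Bn n f ⊆ ⋃ c ∈ (Finset.univ : Finset (Finset (ZMod N))).filter
      (fun c => c.Nonempty), Bn n (nxt (Zc c)) := by
    intro x hx
    have hr : ∀ j : ℕ, ∃ r : ZMod N, j < n →
        ∃ᶠ k in atTop, x j k ≤ f k ∧ (is (ia k) : ZMod N) = r := by
      intro j
      by_cases hj : j < n
      · by_contra hcon
        push Not at hcon
        have h1 : ∀ r : ZMod N, ∀ᶠ k in atTop, x j k ≤ f k → (is (ia k) : ZMod N) ≠ r :=
          fun r => (hcon r).2
        have h2 := eventually_all.mpr h1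
        have h3 : ∃ᶠ k in atTop, x j k ≤ f k := hx j hj
        obtain ⟨k, hk1, hk2⟩ := (h3.and_eventually h2).exists
        exact hk2 _ hk1 rfl
      · exact ⟨0, fun h => absurd h hj⟩
    choose r hr using hr
    set bad : Finset (ZMod N) := (Finset.range n).image r ∪ (Finset.range n).image
      (fun j => r j + 1) with hbad
    have hcard : bad.card < N := by
      have h1 : bad.card ≤ _ := Finset.card_union_le ((Finset.range n).image r)
        ((Finset.range n).image (fun j => r j + 1))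
      have h2 := Finset.card_image_le (s := Finset.range n) (f := r)
      have h3 := Finset.card_image_le (s := Finset.range n) (f := fun j => r j + 1)
      rw [Finset.card_range] at h2 h3
      omega
    have hcne : badᶜ.Nonempty := by
      rw [← Finset.card_pos, Finset.card_compl, ZMod.card]
      omega
    rw [mem_iUnion₂]
    refine ⟨badᶜ, Finset.mem_filter.mpr ⟨Finset.mem_univ _, hcne⟩, fun j hj => ?_⟩
    refine (hr j hj).mono fun k hk => hk.1.trans (hbig _ hcne k ?_ ?_)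
    · rw [hk.2, Finset.mem_compl, not_not, hbad, Finset.mem_union]
      exact Or.inl (Finset.mem_image_of_mem _ (Finset.mem_range.mpr hj))
    · rw [hk.2, Finset.mem_compl, not_not, hbad, Finset.mem_union]
      exact Or.inr (Finset.mem_image.mpr ⟨j, Finset.mem_range.mpr hj, rfl⟩)
  have hexc : ∃ c : Finset (ZMod N), c.Nonempty ∧ Bn n (nxt (Zc c)) ∉ I := by
    by_contra hcon
    push Not at hcon
    refine hfI (hI.2.1 _ ?_ _ hcov)
    have key : ∀ T : Finset (Finset (ZMod N)), (∀ c ∈ T, c.Nonempty) →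
        (⋃ c ∈ T, Bn n (nxt (Zc c))) ∈ I := by
      intro T
      induction T using Finset.induction_on with
      | empty =>
        intro _
        simpa using hI.1
      | insert c T hc ih =>
        intro h
        rw [Finset.set_biUnion_insert]
        exact hI.2.2 _ (hcon c (h c (Finset.mem_insert_self _ _))) _
          (ih fun c hc => h c (Finset.mem_insert_of_mem hc))
    exact key _ fun c hc => (Finset.mem_filter.mp hc).2
  obtain ⟨c, hc, hcI⟩ := hexc
  refine ⟨Mc c, hMinf c hc, ?_⟩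
  rw [← hZM]
  exact ⟨hZinf c hc, hcI⟩

/-- Fewer than `𝔤` groupwise dense families have a common member. -/
theorem exists_common {S : Type} (hS : Cardinal.mk S < gnum) (G : S → Set (Set ℕ))
    (hG : ∀ s, GroupwiseDense (G s)) : ∃ Z, ∀ s, Z ∈ G s := by
  by_contra hcon
  have h1 : gnum ≤ Cardinal.mk (range G) := by
    refine csInf_le' ⟨range G, rfl, ?_, ?_⟩
    · rintro _ ⟨s, rfl⟩
      exact hG s
    · rintro ⟨Z, hZ⟩
      exact hcon ⟨Z, fun s => hZ _ ⟨s, rfl⟩⟩
  exact absurd (h1.trans mk_range_le) (not_le.mpr hS)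

/-- The main lemma on ideals and `𝔤`. -/
theorem lemmaG {n : ℕ} {S : Type} (hS : Cardinal.mk S < gnum) (I : S → Set (Set (ℕ → ℕ → ℕ)))
    (hI : ∀ s, IsIdeal (I s)) (hB : ∀ f, ∃ s, Bn n f ∈ I s) : ∃ s, ∀ f, Bn n f ∈ I s := by
  by_contra hcon
  push Not at hcon
  choose f hf using hcon
  let f' : S → ℕ → ℕ := fun s k => (Finset.range (k + 1)).sup (f s)
  have hf' : ∀ s, Monotone (f' s) := by
    intro s k l hkl
    exact Finset.sup_mono (Finset.range_mono (by omega))
  have hle : ∀ s k, f s k ≤ f' s k := fun s k =>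
    Finset.le_sup (Finset.mem_range.mpr (Nat.lt_succ_self k))
  have hf'I : ∀ s, Bn n (f' s) ∉ I s := by
    intro s h
    exact hf s ((hI s).2.1 _ h _ (Bn_mono (Eventually.of_forall (hle s)) n))
  obtain ⟨Z, hZ⟩ := exists_common hS _ fun s => groupwiseDense (hI s) (hf' s) (hf'I s)
  obtain ⟨s, hs⟩ := hB (nxt Z)
  exact (hZ s).2 hs

end Pool.Agent.R165.Cof
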