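import Pool.Agent.R165.Cof.G

/-!
# The bounding number and the ideals `J1` and `J2`
-/

namespace Pool.Agent.R165.Cof

open Set Filter Topology Cardinal Ordinal

theorem LeStar.trans {f g h : ℕ → ℕ} (h1 : LeStar f g) (h2 : LeStar g h) : LeStar f h := by
  filter_upwards [h1, h2] with k hk1 hk2
  exact hk1.trans hk2

theorem LeStar.rfl' (f : ℕ → ℕ) : LeStar f f := Eventually.of_forall fun _ => le_rfl

theorem bounded_countable (f : ℕ → ℕ → ℕ) : ∃ g, ∀ n, LeStar (f n) g := by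
  refine ⟨fun k => (Finset.range (k + 1)).sup fun n => f n k, fun n => ?_⟩
  filter_upwards [eventually_ge_atTop n] with k hk
  exact Finset.le_sup (f := fun n => f n k) (Finset.mem_range.mpr (by omega))

theorem bounded_of_lt {S : Type} (hS : Cardinal.mk S < bnum) (f : S → ℕ → ℕ) : ∃ g, ∀ s, LeStar (f s) g := by
  by_contra hcon
  have h1 : bnum ≤ Cardinal.mk (range f) := by
    refine csInf_le' ⟨range f, rfl, ?_⟩
    rintro ⟨g, hg⟩
    exact hcon ⟨g, fun s => hg _ ⟨s, rfl⟩⟩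
  exact absurd (h1.trans mk_range_le) (not_le.mpr hS)

theorem exists_family : ∃ f : bnum.ord.ToType → ℕ → ℕ, ∀ g, ∃ i, ¬ LeStar (f i) g := by
  have hne : {κ | ∃ F : Set (ℕ → ℕ), Cardinal.mk F = κ ∧ ¬ ∃ g, ∀ f ∈ F, LeStar f g}.Nonempty := by
    refine ⟨_, univ, rfl, ?_⟩
    rintro ⟨g, hg⟩
    obtain ⟨k, hk⟩ := (hg (fun k => g k + 1) (mem_univ _)).exists
    change g k + 1 ≤ g k at hk
    omega
  obtain ⟨F, hF, hFu⟩ := csInf_mem hne
  have h1 : Cardinal.mk bnum.ord.ToType = Cardinal.mk F := by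
    rw [mk_ord_toType]
    exact hF.symm
  obtain ⟨e⟩ := Cardinal.eq.mp h1
  refine ⟨fun i => e i, fun g => ?_⟩
  by_contra hcon
  push Not at hcon
  refine hFu ⟨g, fun f hf => ?_⟩
  have := hcon (e.symm ⟨f, hf⟩)
  rwa [Equiv.apply_symm_apply] at this

theorem exists_upper (f : bnum.ord.ToType → ℕ → ℕ) (α : bnum.ord.ToType) :
    ∃ g, ∀ i ≤ α, LeStar (f i) g := by
  have h1 : Cardinal.mk (Iio α) < bnum := by simpa using mk_Iio_lt α
  obtain ⟨g, hg⟩ := bounded_of_lt h1 fun i : Iio α => f i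
  refine ⟨fun k => max (g k) (f α k), fun i hi => ?_⟩
  rcases hi.lt_or_eq with h | rfl
  · filter_upwards [hg ⟨i, h⟩] with k hk
    exact hk.trans (le_max_left _ _)
  · exact Eventually.of_forall fun k => le_max_right _ _

theorem exists_above (k : ℕ → bnum.ord.ToType) : ∃ α, ∀ n, k n < α := by
  by_contra hcon
  push Not at hcon
  obtain ⟨f, hf⟩ := exists_family
  choose h hh using fun n => exists_upper f (k n)
  obtain ⟨g, hg⟩ := bounded_countable h
  obtain ⟨i, hi⟩ := hf g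
  obtain ⟨n, hn⟩ := hcon i
  exact hi ((hh n i hn).trans (hg n))

theorem family_nonempty : Nonempty bnum.ord.ToType := by
  obtain ⟨f, hf⟩ := exists_family
  obtain ⟨i, -⟩ := hf fun _ => 0
  exact ⟨i⟩

theorem aleph0_lt_bnum : ℵ₀ < bnum := by
  by_contra hcon
  have h1 : Cardinal.mk bnum.ord.ToType ≤ ℵ₀ := by
    rw [mk_ord_toType]
    exact not_lt.mp hcon
  have : Countable bnum.ord.ToType := mk_le_aleph0_iff.mp h1
  have := family_nonempty
  obtain ⟨k, hk⟩ := exists_surjective_nat bnum.ord.ToType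
  obtain ⟨α, hα⟩ := exists_above k
  obtain ⟨n, hn⟩ := hk α
  exact absurd (hα n) (by rw [hn]; exact lt_irrefl _)

/-- The ordinal length of the index type. -/
theorem type_index (c : Cardinal.{0}) : type (α := c.ord.ToType) (· < ·) = c.ord := type_toType _

/-! ## Measurability -/

theorem measurableSet_Bs (f : ℕ → ℕ) : MeasurableSet (Bs f) := by
  have : Bs f = ⋂ N : ℕ, ⋃ k : ℕ, ⋃ _ : N ≤ k, {x : ℕ → ℕ | x k ≤ f k} := by
    ext x
    simp only [Bs, mem_ofPred_eq, frequently_atTop, mem_iInter, mem_iUnion, exists_prop]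
  rw [this]
  exact .iInter fun _ => .iUnion fun k => .iUnion fun _ =>
    measurableSet_le (measurable_pi_apply k) measurable_const

theorem measurableSet_Bn (n : ℕ) (f : ℕ → ℕ) : MeasurableSet (Bn n f) := by
  have : Bn n f = ⋂ i : ℕ, ⋂ _ : i < n, (fun x : ℕ → ℕ → ℕ => x i) ⁻¹' Bs f := by
    ext x
    simp only [Bn, mem_ofPred_eq, mem_iInter, mem_preimage]
  rw [this]
  exact .iInter fun i => .iInter fun _ => measurable_pi_apply i (measurableSet_Bs f)

/-! ## The ideal `J1` -/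

/-- The `σ`-ideal generated by the sets `Bn 1 f`. -/
def J1 : Set (Set (ℕ → ℕ → ℕ)) := {A | ∃ f, A ⊆ Bn 1 f}

theorem J1_ideal : IsIdeal J1 := by
  refine ⟨⟨fun _ => 0, empty_subset _⟩, fun A ⟨f, hf⟩ B hB => ⟨f, hB.trans hf⟩, ?_⟩
  rintro A ⟨f, hf⟩ B ⟨g, hg⟩
  refine ⟨fun k => max (f k) (g k), union_subset (hf.trans ?_) (hg.trans ?_)⟩
  · exact Bn_mono (Eventually.of_forall fun k => le_max_left _ _) 1
  · exact Bn_mono (Eventually.of_forall fun k => le_max_right _ _) 1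

theorem J1_borel : IsBorelSigmaIdeal J1 := by
  refine ⟨⟨J1_ideal, fun A hA => ?_⟩, ?_⟩
  · choose f hf using hA
    obtain ⟨g, hg⟩ := bounded_countable f
    exact ⟨g, iUnion_subset fun n => (hf n).trans (Bn_mono (hg n) 1)⟩
  · rintro A ⟨f, hf⟩
    exact ⟨Bn 1 f, ⟨f, Subset.rfl⟩, measurableSet_Bn 1 f, hf⟩

theorem J1_singleton (x : ℕ → ℕ → ℕ) : {x} ∈ J1 := by
  refine ⟨x 0, ?_⟩
  rintro y rfl i hi
  obtain rfl : i = 0 := by omega
  exact self_mem_Bs _

/-- The lower bound by `𝔤` for sequences of ideals. -/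
theorem gnum_le_of_J1 {γ : Ordinal.{0}} (h : HasSeq IsIdeal (fun _ => True) J1 γ) :
    gnum.ord ≤ γ := by
  obtain ⟨hγ, F, hF1, -, hF2, hF3⟩ := h
  rw [ord_le]
  by_contra hlt
  rw [not_le] at hlt
  have hcard : Cardinal.mk γ.ToType < gnum := by rwa [mk_toType]
  obtain ⟨s, hs⟩ := lemmaG (n := 1) hcard (fun s : γ.ToType => F (ToType.mk.symm s : Iio γ))
    (fun s => hF1 _ (ToType.mk.symm s : Iio γ).2) (by
      intro f
      have h1 : Bn 1 f ∈ J1 := ⟨f, Subset.rfl⟩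
      rw [hF3] at h1
      obtain ⟨α, hα, hαf⟩ := h1
      refine ⟨ToType.mk ⟨α, hα⟩, ?_⟩
      rw [OrderIso.symm_apply_apply]
      exact hαf)
  set α : Ordinal.{0} := ((ToType.mk.symm s : Iio γ) : Ordinal.{0}) with hα
  have hαγ : α < γ := (ToType.mk.symm s : Iio γ).2
  have h2 := hF2 α (Order.succ α) (Order.lt_succ α) (hγ.succ_lt hαγ)
  obtain ⟨A, hA1, hA2⟩ := exists_of_ssubset h2
  have h3 : A ∈ J1 := by
    rw [hF3]
    exact ⟨_, hγ.succ_lt hαγ, hA1⟩
  obtain ⟨f, hf⟩ := h3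
  exact hA2 ((hF1 α hαγ).2.1 _ (hs f) _ hf)

/-- The upper bound by `𝔟` for sequences of lower families. -/
theorem J1_star : cofinStar J1 ≤ (bnum.ord : WithTop Ordinal.{0}) := by
  obtain ⟨f, hf⟩ := exists_family
  have := family_nonempty
  obtain ⟨γ, hγ, hle⟩ := exists_hasSeq (Q := IsLowerFamily) (Q0 := fun _ => True) (I := J1)
    (fun α : bnum.ord.ToType =>
      {A | A = ∅ ∨ ∃ g, (∃ k < α, ¬ LeStar (f k) g) ∧ A ⊆ Bn 1 g}) (by
      rintro α A hA B hB
      rcases hA with rfl | ⟨g, hg, hA⟩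
      · exact Or.inl (subset_empty_iff.mp hB)
      · exact Or.inr ⟨g, hg, hB.trans hA⟩) (fun _ => trivial) (by
      rintro α β hαβ A hA
      rcases hA with rfl | ⟨g, ⟨k, hk, hkg⟩, hA⟩
      · exact Or.inl rfl
      · exact Or.inr ⟨g, ⟨k, hk.trans_le hαβ, hkg⟩, hA⟩) (by
      ext A
      constructor
      · rintro ⟨g, hg⟩
        obtain ⟨k, hk⟩ := hf g
        obtain ⟨α, hα⟩ := exists_above fun _ => k
        exact ⟨α, Or.inr ⟨g, ⟨k, hα 0, hk⟩, hg⟩⟩
      · rintro ⟨α, rfl | ⟨g, -, hA⟩⟩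
        · exact J1_ideal.1
        · exact ⟨g, hA⟩) (by
      intro α hα
      obtain ⟨g, hg⟩ := exists_upper f α
      have h1 : Bn 1 g ∈ J1 := ⟨g, Subset.rfl⟩
      rw [← hα] at h1
      rcases h1 with h1 | ⟨g', ⟨k, hk, hkg⟩, h1⟩
      · have h2 : (fun _ => g : ℕ → ℕ → ℕ) ∈ Bn 1 g := fun i _ => self_mem_Bs g
        rw [h1] at h2
        exact h2
      · obtain ⟨x, hx1, hx2⟩ := exists_mem_diff hkg
        have h2 : (fun _ => x : ℕ → ℕ → ℕ) ∈ Bn 1 g := fun i _ => Bs_mono (hg k hk.le) hx1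
        exact hx2 (h1 h2 0 (by omega)))
  rw [type_index] at hle
  exact (cofinWith_le hγ).trans (WithTop.coe_le_coe.mpr hle)

theorem J1_lt (h : bnum < gnum) : cofinStar J1 < cofinMinus J1 := by
  refine J1_star.trans_lt (lt_of_lt_of_le ?_ (le_cofinWith fun γ hγ => gnum_le_of_J1 hγ))
  exact WithTop.coe_lt_coe.mpr (ord_lt_ord.mpr h)

/-! ## The ideal `J2` -/

/-- The sections of a subset of the product. -/
def sec (A : Set (ℕ × (ℕ → ℕ → ℕ))) (n : ℕ) : Set (ℕ → ℕ → ℕ) := {x | (n, x) ∈ A}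

/-- The `σ`-ideal on `ℕ × (ℕ → ℕ → ℕ)`. -/
def J2 : Set (Set (ℕ × (ℕ → ℕ → ℕ))) := {A | ∀ n, ∃ f, sec A n ⊆ Bn (n + 1) f}

theorem J2_lower : IsLowerFamily J2 := by
  intro A hA B hB n
  obtain ⟨f, hf⟩ := hA n
  exact ⟨f, fun x hx => hf (hB hx)⟩

theorem J2_iUnion (A : ℕ → Set (ℕ × (ℕ → ℕ → ℕ))) (hA : ∀ n, A n ∈ J2) : (⋃ n, A n) ∈ J2 := by
  intro m
  choose f hf using fun n => hA n m
  obtain ⟨g, hg⟩ := bounded_countable f
  refine ⟨g, fun x hx => ?_⟩
  obtain ⟨n, hn⟩ := mem_iUnion.mp hx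
  exact Bn_mono (hg n) _ (hf n hn)

theorem J2_ideal : IsIdeal J2 := by
  refine ⟨fun n => ⟨fun _ => 0, fun x hx => absurd hx (notMem_empty _)⟩, J2_lower, ?_⟩
  intro A hA B hB
  have h1 := J2_iUnion (fun n => if n = 0 then A else B) (fun n => by
    split_ifs
    · exact hA
    · exact hB)
  refine J2_lower _ h1 _ (union_subset ?_ ?_)
  · intro x hx
    exact mem_iUnion.mpr ⟨0, by rw [if_pos rfl]; exact hx⟩
  · intro x hx
    exact mem_iUnion.mpr ⟨1, by rw [if_neg one_ne_zero]; exact hx⟩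

theorem J2_borel : IsBorelSigmaIdeal J2 := by
  refine ⟨⟨J2_ideal, J2_iUnion⟩, fun A hA => ?_⟩
  choose f hf using hA
  refine ⟨⋃ n : ℕ, {n} ×ˢ Bn (n + 1) (f n), ?_, ?_, ?_⟩
  · intro n
    refine ⟨f n, fun x hx => ?_⟩
    obtain ⟨m, hm1, hm2⟩ := mem_iUnion.mp hx
    obtain rfl : n = m := hm1
    exact hm2
  · exact .iUnion fun n => (measurableSet_singleton n).prod (measurableSet_Bn _ _)
  · rintro ⟨n, x⟩ hx
    exact mem_iUnion.mpr ⟨n, rfl, hf n hx⟩

theorem J2_singleton (x : ℕ × (ℕ → ℕ → ℕ)) : {x} ∈ J2 := by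
  intro n
  refine ⟨fun k => (Finset.range (n + 1)).sup fun i => x.2 i k, ?_⟩
  intro y hy i hi
  have h1 : (n, y) = x := hy
  have h2 : y = x.2 := by rw [← h1]
  refine (Eventually.of_forall fun k => ?_).frequently
  rw [h2]
  exact Finset.le_sup (f := fun i => x.2 i k) (Finset.mem_range.mpr hi)

/-- The upper bound by `𝔟` for sequences of ideals. -/
theorem J2_minus : cofinMinus J2 ≤ (bnum.ord : WithTop Ordinal.{0}) := by
  classical
  obtain ⟨f, hf⟩ := exists_family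
  have := family_nonempty
  obtain ⟨γ, hγ, hle⟩ := exists_hasSeq (Q := IsIdeal) (Q0 := fun _ => True) (I := J2)
    (fun α : bnum.ord.ToType =>
      {A | A ∈ J2 ∧ ∃ j N : ℕ, ∀ n ≥ N, ∃ S : Finset (ℕ → ℕ), S.card ≤ j ∧
        (∀ g ∈ S, ∃ k < α, ¬ LeStar (f k) g) ∧ sec A n ⊆ ⋃ g ∈ S, Bn (n + 1) g}) (by
      intro α
      refine ⟨⟨J2_ideal.1, 0, 0, fun n _ => ⟨∅, le_rfl, fun g hg => absurd hg (Finset.notMem_empty g),
        fun x hx => absurd hx (notMem_empty _)⟩⟩, ?_, ?_⟩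
      · rintro A ⟨hA, j, N, h⟩ B hB
        refine ⟨J2_lower A hA B hB, j, N, fun n hn => ?_⟩
        obtain ⟨S, h1, h2, h3⟩ := h n hn
        exact ⟨S, h1, h2, fun x hx => h3 (hB hx)⟩
      · rintro A ⟨hA, j, N, h⟩ B ⟨hB, j', N', h'⟩
        refine ⟨J2_ideal.2.2 A hA B hB, j + j', max N N', fun n hn => ?_⟩
        obtain ⟨S, h1, h2, h3⟩ := h n (le_trans (le_max_left _ _) hn)
        obtain ⟨S', h1', h2', h3'⟩ := h' n (le_trans (le_max_right _ _) hn)
        refine ⟨S ∪ S', (Finset.card_union_le S S').trans (by omega), ?_, ?_⟩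
        · intro g hg
          rcases Finset.mem_union.mp hg with hg | hg
          · exact h2 g hg
          · exact h2' g hg
        · rintro x (hx | hx)
          · obtain ⟨g, hg, hxg⟩ := mem_iUnion₂.mp (h3 hx)
            exact mem_iUnion₂.mpr ⟨g, Finset.mem_union_left _ hg, hxg⟩
          · obtain ⟨g, hg, hxg⟩ := mem_iUnion₂.mp (h3' hx)
            exact mem_iUnion₂.mpr ⟨g, Finset.mem_union_right _ hg, hxg⟩)
    (fun _ => trivial) (by
      rintro α β hαβ A ⟨hA, j, N, h⟩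
      refine ⟨hA, j, N, fun n hn => ?_⟩
      obtain ⟨S, h1, h2, h3⟩ := h n hn
      refine ⟨S, h1, fun g hg => ?_, h3⟩
      obtain ⟨k, hk, hkg⟩ := h2 g hg
      exact ⟨k, hk.trans_le hαβ, hkg⟩) (by
      ext A
      constructor
      · intro hA
        choose g hg using hA
        choose k hk using fun n => hf (g n)
        obtain ⟨α, hα⟩ := exists_above k
        refine ⟨α, fun n => ⟨g n, hg n⟩, 1, 0, fun n _ => ⟨{g n}, by simp, ?_, ?_⟩⟩
        · intro g' hg'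
          rw [Finset.mem_singleton] at hg'
          rw [hg']
          exact ⟨k n, hα n, hk n⟩
        · intro x hx
          exact mem_iUnion₂.mpr ⟨g n, Finset.mem_singleton_self _, hg n hx⟩
      · rintro ⟨α, hA, -⟩
        exact hA) (by
      intro α hα
      obtain ⟨g, hg⟩ := exists_upper f α
      set A : Set (ℕ × (ℕ → ℕ → ℕ)) := {p | p.2 ∈ Bn (p.1 + 1) g} with hAdef
      have h1 : A ∈ J2 := fun n => ⟨g, fun x hx => hx⟩
      rw [← hα] at h1
      obtain ⟨-, j, N, h⟩ := h1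
      obtain ⟨S, hS1, hS2, hS3⟩ := h (max N j) (le_max_left _ _)
      choose! k hk hkg using hS2
      choose! z hz1 hz2 using fun (g' : ℕ → ℕ) (h : g' ∈ S) => exists_mem_diff (hkg g' h)
      -- enumerate `S`
      let e := S.equivFin
      let x : ℕ → ℕ → ℕ := fun i => if h : i < S.card then z (e.symm ⟨i, h⟩) else g
      have hx : x ∈ Bn (max N j + 1) g := by
        intro i _
        change (if h : i < S.card then z (e.symm ⟨i, h⟩) else g) ∈ Bs g
        split_ifs with h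
        · exact Bs_mono (hg _ (hk _ (e.symm ⟨i, h⟩).2).le) (hz1 _ (e.symm ⟨i, h⟩).2)
        · exact self_mem_Bs g
      have hxA : x ∈ sec A (max N j) := hx
      obtain ⟨g', hg', hxg⟩ := mem_iUnion₂.mp (hS3 hxA)
      have hlt : (e ⟨g', hg'⟩ : ℕ) < S.card := (e ⟨g', hg'⟩).2
      have hlt' : (e ⟨g', hg'⟩ : ℕ) < max N j + 1 := by
        have := le_max_right N j
        omega
      have h2 := hxg _ hlt'
      have h3 : x (e ⟨g', hg'⟩ : ℕ) = z g' := by
        change (if h : (e ⟨g', hg'⟩ : ℕ) < S.card then z (e.symm ⟨_, h⟩) else g) = z g'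
        rw [dif_pos hlt]
        simp
      rw [h3] at h2
      exact hz2 g' hg' h2)
  rw [type_index] at hle
  exact (cofinWith_le hγ).trans (WithTop.coe_le_coe.mpr hle)

/-- The lower bound by `𝔤` for sequences of `σ`-ideals. -/
theorem gnum_le_of_J2 {γ : Ordinal.{0}} (h : HasSeq IsSigmaIdeal (fun _ => True) J2 γ) :
    gnum.ord ≤ γ := by
  obtain ⟨hγ, F, hF1, -, hF2, hF3⟩ := h
  have hmono : ∀ α β, α ≤ β → β < γ → F α ⊆ F β := by
    intro α β hαβ hβ
    rcases hαβ.lt_or_eq with h | rfl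
    · exact (hF2 α β h hβ).subset
    · exact Subset.rfl
  rw [ord_le]
  by_contra hlt
  rw [not_le] at hlt
  have hcard : Cardinal.mk γ.ToType < gnum := by rwa [mk_toType]
  have key : ∀ n : ℕ, ∃ α < γ, ∀ f, ({n} ×ˢ Bn (n + 1) f : Set (ℕ × (ℕ → ℕ → ℕ))) ∈ F α := by
    intro n
    obtain ⟨s, hs⟩ := lemmaG (n := n + 1) hcard
      (fun s : γ.ToType => {A : Set (ℕ → ℕ → ℕ) | ({n} ×ˢ A : Set (ℕ × (ℕ → ℕ → ℕ))) ∈
        F (ToType.mk.symm s : Iio γ)}) (by
        intro s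
        have h1 := (hF1 ((ToType.mk.symm s : Iio γ) : Ordinal.{0})
          (ToType.mk.symm s : Iio γ).2).1
        refine ⟨?_, fun A hA B hB => ?_, fun A hA B hB => ?_⟩
        · change ({n} ×ˢ ∅ : Set (ℕ × (ℕ → ℕ → ℕ))) ∈
            F ((ToType.mk.symm s : Iio γ) : Ordinal.{0})
          rw [prod_empty]
          exact h1.1
        · exact h1.2.1 _ hA _ (prod_mono_right hB)
        · change ({n} ×ˢ (A ∪ B) : Set (ℕ × (ℕ → ℕ → ℕ))) ∈
            F ((ToType.mk.symm s : Iio γ) : Ordinal.{0})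
          rw [prod_union]
          exact h1.2.2 _ hA _ hB) (by
        intro f
        have h1 : ({n} ×ˢ Bn (n + 1) f : Set (ℕ × (ℕ → ℕ → ℕ))) ∈ J2 := by
          intro m
          refine ⟨f, fun x hx => ?_⟩
          obtain ⟨hm1, hm2⟩ := hx
          obtain rfl : m = n := hm1
          exact hm2
        rw [hF3] at h1
        obtain ⟨α, hα, hαf⟩ := h1
        refine ⟨ToType.mk ⟨α, hα⟩, ?_⟩
        rw [OrderIso.symm_apply_apply]
        exact hαf)
    exact ⟨_, (ToType.mk.symm s : Iio γ).2, hs⟩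
  choose a haγ ha using key
  by_cases hb : ∃ β < γ, ∀ n, a n ≤ β
  · obtain ⟨β, hβ, hab⟩ := hb
    have h2 := hF2 β (Order.succ β) (Order.lt_succ β) (hγ.succ_lt hβ)
    obtain ⟨A, hA1, hA2⟩ := exists_of_ssubset h2
    have h3 : A ∈ J2 := by
      rw [hF3]
      exact ⟨_, hγ.succ_lt hβ, hA1⟩
    choose f hf using h3
    refine hA2 ((hF1 β hβ).1.2.1 _ ((hF1 β hβ).2 (fun n => {n} ×ˢ Bn (n + 1) (f n))
      fun n => hmono _ _ (hab n) hβ (ha n (f n))) _ ?_)
    rintro ⟨n, x⟩ hx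
    exact mem_iUnion.mpr ⟨n, rfl, hf n hx⟩
  · push Not at hb
    have h4 : ∀ n, ∃ A ∈ J2, A ∉ F (a n) := by
      intro n
      have h2 := hF2 (a n) (Order.succ (a n)) (Order.lt_succ _) (hγ.succ_lt (haγ n))
      obtain ⟨A, hA1, hA2⟩ := exists_of_ssubset h2
      refine ⟨A, ?_, hA2⟩
      rw [hF3]
      exact ⟨_, hγ.succ_lt (haγ n), hA1⟩
    choose A hA1 hA2 using h4
    have h5 := J2_iUnion A hA1
    rw [hF3] at h5
    obtain ⟨β, hβ, hβA⟩ := h5
    obtain ⟨n, hn⟩ := hb β hβ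
    exact hA2 n (hmono β (a n) hn.le (haγ n) ((hF1 β hβ).1.2.1 _ hβA _ (subset_iUnion A n)))

theorem J2_lt (h : bnum < gnum) : cofinMinus J2 < cofin J2 := by
  refine J2_minus.trans_lt (lt_of_lt_of_le ?_ (le_cofinWith fun γ hγ => gnum_le_of_J2 hγ))
  exact WithTop.coe_lt_coe.mpr (ord_lt_ord.mpr h)

end Pool.Agent.R165.Cof
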