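import Pool.Agent.R165.Cof.H

/-!
# Part (c): ideals with a countable part
-/

namespace Pool.Agent.R165.Cof

open Set Filter Topology Cardinal Ordinal

theorem sigma_of {X : Type} {I : Set (Set X)} (h0 : ∅ ∈ I) (h1 : IsLowerFamily I)
    (h2 : ∀ A : ℕ → Set X, (∀ n, A n ∈ I) → (⋃ n, A n) ∈ I) : IsSigmaIdeal I := by
  refine ⟨⟨h0, h1, fun A hA B hB => ?_⟩, h2⟩
  have h3 := h2 (fun n => if n = 0 then A else B) (fun n => by
    split_ifs
    · exact hA
    · exact hB)
  refine h1 _ h3 _ (union_subset ?_ ?_)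
  · intro x hx
    exact mem_iUnion.mpr ⟨0, by rw [if_pos rfl]; exact hx⟩
  · intro x hx
    exact mem_iUnion.mpr ⟨1, by rw [if_neg one_ne_zero]; exact hx⟩

theorem sigma_biUnion {X Z : Type} {I : Set (Set X)} (hI : IsSigmaIdeal I) {S : Set Z}
    (hS : S.Countable) (A : Z → Set X) (hA : ∀ i ∈ S, A i ∈ I) : (⋃ i ∈ S, A i) ∈ I := by
  rcases S.eq_empty_or_nonempty with rfl | hne
  · simpa using hI.1.1
  · obtain ⟨s, rfl⟩ := hS.exists_eq_range hne
    rw [biUnion_range]
    exact hI.2 _ fun n => hA _ ⟨n, rfl⟩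

theorem sigma_countable {X : Type} {I : Set (Set X)} (hI : IsSigmaIdeal I)
    (h1 : ∀ x, {x} ∈ I) {C : Set X} (hC : C.Countable) : C ∈ I := by
  have := sigma_biUnion hI hC (fun x => {x}) fun x _ => h1 x
  rwa [biUnion_of_singleton] at this

/-- The index type `ω₁`. -/
abbrev W1 : Type := (ℵ₁ : Cardinal.{0}).ord.ToType

theorem above1 (C : Set W1) (hC : C.Countable) : ∃ α, ∀ i ∈ C, i < α := by
  by_contra hcon
  push Not at hcon
  have h1 : (univ : Set W1) ⊆ ⋃ i ∈ C, Iic i := by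
    intro α _
    obtain ⟨i, hi, hα⟩ := hcon α
    exact mem_iUnion₂.mpr ⟨i, hi, hα⟩
  have h2 : ∀ i : W1, (Iic i).Countable := by
    intro i
    have h3 : Cardinal.mk (Iio i) < ℵ₁ := by simpa using mk_Iio_lt i
    have h4 : (ℵ₁ : Cardinal.{0}) = Order.succ ℵ₀ := succ_aleph0.symm
    have h5 : Cardinal.mk (Iio i) ≤ ℵ₀ := Order.lt_succ_iff.mp (h3.trans_eq h4)
    rw [le_aleph0_iff_set_countable] at h5
    rw [← Iio_insert]
    exact h5.insert i
  have h3 : (univ : Set W1).Countable := (hC.biUnion fun i _ => h2 i).mono h1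
  have h4 : Cardinal.mk W1 ≤ ℵ₀ := mk_le_aleph0_iff.mpr (countable_univ_iff.mp h3)
  rw [mk_ord_toType] at h4
  exact absurd h4 (not_le.mpr aleph0_lt_aleph_one)

theorem nonempty_W1 : Nonempty W1 := by
  obtain ⟨α, -⟩ := above1 ∅ countable_empty
  exact ⟨α⟩

theorem cnt_cofin {X : Type} (t : W1 → X) {I : Set (Set X)}
    (hI : IsSigmaIdeal I) (hs : ∀ x, {x} ∈ I) (hc : ∀ A ∈ I, {i | t i ∈ A}.Countable) :
    cofin I ≤ ((ℵ₁ : Cardinal.{0}).ord : WithTop Ordinal.{0}) := by
  have := nonempty_W1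
  obtain ⟨γ, hγ, hle⟩ := exists_hasSeq (Q := IsSigmaIdeal) (Q0 := fun _ => True) (I := I)
    (fun α : W1 => {A | A ∈ I ∧ ∀ β ≥ α, t β ∉ A}) (by
      intro α
      refine sigma_of ⟨hI.1.1, fun β _ => notMem_empty _⟩ ?_ ?_
      · rintro A ⟨hA, h1⟩ B hB
        exact ⟨hI.1.2.1 A hA B hB, fun β hβ h2 => h1 β hβ (hB h2)⟩
      · intro A hA
        refine ⟨hI.2 A fun n => (hA n).1, fun β hβ h2 => ?_⟩
        obtain ⟨n, hn⟩ := mem_iUnion.mp h2
        exact (hA n).2 β hβ hn) (fun _ => trivial) (by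
      rintro α β hαβ A ⟨hA, h1⟩
      exact ⟨hA, fun δ hδ => h1 δ (hαβ.trans hδ)⟩) (by
      ext A
      constructor
      · intro hA
        obtain ⟨α, hα⟩ := above1 _ (hc A hA)
        exact ⟨α, hA, fun β hβ h1 => absurd (hα β h1) (not_lt.mpr hβ)⟩
      · rintro ⟨α, hA, -⟩
        exact hA) (by
      intro α hα
      have h1 := hs (t α)
      rw [← hα] at h1
      exact h1.2 α le_rfl rfl)
  rw [type_index] at hle
  exact (cofinWith_le hγ).trans (WithTop.coe_le_coe.mpr hle)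

/-! ## The ideal of countable sets -/

/-- Countable subsets of the Cantor space. -/
def J4 : Set (Set (ℕ → Bool)) := {A | A.Countable}

theorem J4_borel : IsBorelSigmaIdeal J4 :=
  ⟨sigma_of countable_empty (fun _ hA _ hB => Countable.mono hB hA)
    (fun _ hA => countable_iUnion hA), fun A hA => ⟨A, hA, Countable.measurableSet hA, Subset.rfl⟩⟩

theorem exists_injection {X : Type} (hX : 𝔠 ≤ Cardinal.mk X) : ∃ t : W1 → X, Function.Injective t := by
  have h1 : Cardinal.mk W1 ≤ Cardinal.mk X := by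
    rw [mk_ord_toType]
    exact aleph_one_le_continuum.trans hX
  obtain ⟨e⟩ := h1
  exact ⟨e, e.injective⟩

theorem J4_cofin : cofin J4 ≤ ((ℵ₁ : Cardinal.{0}).ord : WithTop Ordinal.{0}) := by
  obtain ⟨t, ht⟩ := exists_injection (X := ℕ → Bool) (by simp)
  refine cnt_cofin t J4_borel.1 (fun x => countable_singleton x) fun A hA => ?_
  exact Countable.preimage_of_injOn hA ht.injOn

theorem J4_plus : cofinPlus J4 = ⊤ := by
  refine cofinWith_eq_top ?_
  rintro γ ⟨hγ, F, hF1, hF0, hF2, hF3⟩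
  have h0 : (0 : Ordinal.{0}) < γ := hγ.bot_lt
  have h1 : Order.succ (0 : Ordinal.{0}) < γ := hγ.succ_lt h0
  obtain ⟨A, hA1, hA2⟩ := exists_of_ssubset (hF2 0 (Order.succ 0) (Order.lt_succ 0) h1)
  have h2 : A ∈ J4 := by
    rw [hF3]
    exact ⟨_, h1, hA1⟩
  exact hA2 (sigma_countable (hF1 0 h0) hF0 h2)

/-! ## The ideal `J3` -/

/-- The points of `A` over `b`. -/
def bsec (A : Set (Bool × (ℕ → ℕ → ℕ))) (b : Bool) : Set (ℕ → ℕ → ℕ) := {y | (b, y) ∈ A}

/-- A countable set next to a member of `J1`. -/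
def J3 : Set (Set (Bool × (ℕ → ℕ → ℕ))) := {A | (bsec A false).Countable ∧ bsec A true ∈ J1}

theorem J3_sigma : IsSigmaIdeal J3 := by
  refine sigma_of ⟨countable_empty, J1_ideal.1⟩ ?_ ?_
  · rintro A ⟨h1, h2⟩ B hB
    exact ⟨h1.mono fun y hy => hB hy, J1_ideal.2.1 _ h2 _ fun y hy => hB hy⟩
  · intro A hA
    constructor
    · have : bsec (⋃ n, A n) false = ⋃ n, bsec (A n) false := by
        ext y
        simp [bsec]
      rw [this]
      exact countable_iUnion fun n => (hA n).1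
    · have : bsec (⋃ n, A n) true = ⋃ n, bsec (A n) true := by
        ext y
        simp [bsec]
      rw [this]
      exact J1_borel.1.2 _ fun n => (hA n).2

theorem J3_singleton (x : Bool × (ℕ → ℕ → ℕ)) : {x} ∈ J3 := by
  have h : ∀ b, bsec {x} b ⊆ {x.2} := by
    intro b y hy
    have h1 : (b, y) = x := hy
    rw [← h1]
    rfl
  exact ⟨(countable_singleton _).mono (h false), J1_ideal.2.1 _ (J1_singleton x.2) _ (h true)⟩

theorem J3_borel : IsBorelSigmaIdeal J3 := by
  refine ⟨J3_sigma, ?_⟩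
  rintro A ⟨h1, f, hf⟩
  refine ⟨{false} ×ˢ bsec A false ∪ {true} ×ˢ Bn 1 f, ⟨?_, f, ?_⟩, ?_, ?_⟩
  · refine h1.mono fun y hy => ?_
    rcases hy with ⟨-, hy⟩ | ⟨hy, -⟩
    · exact hy
    · exact absurd hy Bool.false_ne_true
  · rintro y (⟨hy, -⟩ | ⟨-, hy⟩)
    · exact absurd (show (true : Bool) = false from hy) (by simp)
    · exact hy
  · exact ((measurableSet_singleton _).prod h1.measurableSet).union
      ((measurableSet_singleton _).prod (measurableSet_Bn 1 f))
  · rintro ⟨b, y⟩ hy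
    cases b with
    | false => exact Or.inl ⟨rfl, hy⟩
    | true => exact Or.inr ⟨rfl, hf hy⟩

theorem J3_cofin : cofin J3 ≤ ((ℵ₁ : Cardinal.{0}).ord : WithTop Ordinal.{0}) := by
  obtain ⟨t, ht⟩ := exists_injection (X := ℕ → ℕ → ℕ) (by simp)
  refine cnt_cofin (fun i => (false, t i)) J3_sigma
    J3_singleton fun A hA => ?_
  exact Countable.preimage_of_injOn hA.1 ht.injOn

/-- The lower bound by `𝔟`. -/
theorem bnum_le_of_J3 {γ : Ordinal.{0}}
    (h : HasSeq IsSigmaIdeal (fun F => ∀ x, {x} ∈ F) J3 γ) : bnum.ord ≤ γ := by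
  obtain ⟨hγ, F, hF1, hF0, hF2, hF3⟩ := h
  have h0 : (0 : Ordinal.{0}) < γ := hγ.bot_lt
  have hmono : ∀ α β, α ≤ β → β < γ → F α ⊆ F β := by
    intro α β hαβ hβ
    rcases hαβ.lt_or_eq with h | rfl
    · exact (hF2 α β h hβ).subset
    · exact Subset.rfl
  rw [ord_le]
  by_contra hlt
  rw [not_le] at hlt
  have hcard : Cardinal.mk γ.ToType < bnum := by rwa [mk_toType]
  have h4 : ∀ s : γ.ToType, ∃ A ∈ J3, A ∉ F ((ToType.mk.symm s : Iio γ) : Ordinal.{0}) := by
    intro s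
    have hs : ((ToType.mk.symm s : Iio γ) : Ordinal.{0}) < γ := (ToType.mk.symm s : Iio γ).2
    obtain ⟨A, hA1, hA2⟩ := exists_of_ssubset (hF2 _ _ (Order.lt_succ _) (hγ.succ_lt hs))
    refine ⟨A, ?_, hA2⟩
    rw [hF3]
    exact ⟨_, hγ.succ_lt hs, hA1⟩
  choose A hA1 hA2 using h4
  choose f hf using fun s => (hA1 s).2
  obtain ⟨g, hg⟩ := bounded_of_lt hcard f
  have h5 : ({true} ×ˢ Bn 1 g : Set (Bool × (ℕ → ℕ → ℕ))) ∈ J3 := by
    refine ⟨countable_empty.mono ?_, g, fun y hy => hy.2⟩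
    rintro y ⟨hy, -⟩
    exact absurd hy Bool.false_ne_true
  rw [hF3] at h5
  obtain ⟨α, hα, hαg⟩ := h5
  set s : γ.ToType := ToType.mk ⟨α, hα⟩ with hs
  have hsα : ((ToType.mk.symm s : Iio γ) : Ordinal.{0}) = α := by
    rw [hs, OrderIso.symm_apply_apply]
  have h6 := hA2 s
  rw [hsα] at h6
  refine h6 ((hF1 α hα).1.2.1 _ ((hF1 α hα).1.2.2 _ (hmono 0 α bot_le hα
    (sigma_countable (hF1 0 h0) hF0 ((hA1 s).1.image fun y => (false, y)))) _ hαg) _ ?_)
  rintro ⟨b, y⟩ hy
  cases b with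
  | false => exact Or.inl ⟨y, hy, rfl⟩
  | true => exact Or.inr ⟨rfl, Bn_mono (hg s) 1 (hf s hy)⟩

/-- A diagonalization. -/
theorem diag (g : ℕ → ℕ) (u : ℕ → ℕ → ℕ)
    (h : ∀ n, ¬ LeStar g (fun k => (Finset.range (n + 1)).sup fun j => u j k)) :
    ∃ v, (∀ n, LeStar (u n) v) ∧ ¬ LeStar g v := by
  have h1 : ∀ n, ∃ᶠ k in atTop, ((Finset.range (n + 1)).sup fun j => u j k) < g k := by
    intro n
    have h2 := h n
    unfold LeStar at h2
    rw [not_eventually] at h2
    exact h2.mono fun k hk => not_le.mp hk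
  obtain ⟨φ, hφ, hφg⟩ := extraction_forall_of_frequently h1
  have hex : ∀ k, ∃ n, k ≤ φ n := fun k => ⟨k, hφ.id_le k⟩
  classical
  refine ⟨fun k => (Finset.range (Nat.find (hex k) + 1)).sup fun j => u j k, fun n => ?_, ?_⟩
  · filter_upwards [eventually_gt_atTop (φ n)] with k hk
    refine Finset.le_sup (f := fun j => u j k) (Finset.mem_range.mpr ?_)
    have h3 := Nat.find_spec (hex k)
    have h4 : n < Nat.find (hex k) := by
      by_contra hle
      have := hφ.monotone (not_lt.mp hle)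
      omega
    omega
  · intro h3
    unfold LeStar at h3
    obtain ⟨N, hN⟩ := eventually_atTop.mp h3
    have h4 := hN (φ N) (hφ.id_le N)
    have h5 : Nat.find (hex (φ N)) = N := by
      rw [Nat.find_eq_iff]
      refine ⟨le_rfl, fun m hm => ?_⟩
      have := hφ hm
      omega
    simp only [h5] at h4
    exact absurd (hφg N) (not_lt.mpr h4)

theorem uncountable_baire : Uncountable (ℕ → ℕ) := by
  rw [uncountable_iff_forall_not_surjective]
  intro f hf
  obtain ⟨n, hn⟩ := hf fun k => f k k + 1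
  have := congrFun hn n
  simp at this

/-- Families such that every function is dominated by a finite maximum of members. -/
theorem exists_dominating : ∃ (κ : Cardinal.{0}) (f : κ.ord.ToType → ℕ → ℕ), ℵ₀ ≤ κ ∧
    (∀ g, ∃ S : Finset κ.ord.ToType, LeStar g fun k => S.sup fun i => f i k) ∧
    ∀ α : κ.ord.ToType, ∃ g, ∀ S : Finset κ.ord.ToType, (∀ i ∈ S, i < α) →
      ¬ LeStar g fun k => S.sup fun i => f i k := by
  classical
  set D : Set Cardinal.{0} := {κ | ∃ F : Set (ℕ → ℕ), Cardinal.mk F = κ ∧ ∀ g, ∃ S : Finset (ℕ → ℕ),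
    (∀ f ∈ S, f ∈ F) ∧ LeStar g fun k => S.sup fun f => f k} with hD
  have hne : D.Nonempty := ⟨_, univ, rfl, fun g => ⟨{g}, fun _ _ => mem_univ _,
    Eventually.of_forall fun k => by simp⟩⟩
  obtain ⟨F, hF, hFd⟩ := csInf_mem hne
  set κ := sInf D with hκ
  have h1 : Cardinal.mk κ.ord.ToType = Cardinal.mk F := by
    rw [mk_ord_toType]
    exact hF.symm
  obtain ⟨e⟩ := Cardinal.eq.mp h1
  refine ⟨κ, fun i => e i, ?_, fun g => ?_, fun α => ?_⟩
  · by_contra hlt
    rw [not_le, ← hF, lt_aleph0_iff_set_finite] at hlt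
    obtain ⟨S, hS, hSg⟩ := hFd fun k => (hlt.toFinset.sup fun f => f k) + 1
    obtain ⟨k, hk⟩ := hSg.exists
    have h2 : (S.sup fun f => f k) ≤ hlt.toFinset.sup fun f => f k :=
      Finset.sup_mono fun f hf => hlt.mem_toFinset.mpr (hS f hf)
    have h3 : (hlt.toFinset.sup fun f => f k) + 1 ≤ S.sup fun f => f k := hk
    omega
  · obtain ⟨S, hS, hSg⟩ := hFd g
    refine ⟨S.attach.image fun f => e.symm ⟨f.1, hS f.1 f.2⟩, ?_⟩
    filter_upwards [hSg] with k hk
    refine hk.trans (Finset.sup_le fun f hf => ?_)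
    refine le_trans (le_of_eq ?_) (Finset.le_sup (f := fun i => (e i : ℕ → ℕ) k)
      (Finset.mem_image.mpr ⟨⟨f, hf⟩, Finset.mem_attach _ _, rfl⟩))
    simp
  · by_contra hcon
    push Not at hcon
    have h2 : Cardinal.mk (((fun i => (e i : ℕ → ℕ)) '' Iio α) : Set (ℕ → ℕ)) < κ := by
      refine mk_image_le.trans_lt ?_
      simpa using mk_Iio_lt α
    refine absurd (csInf_le' (?_ : _ ∈ D)) (not_le.mpr h2)
    refine ⟨_, rfl, fun g => ?_⟩
    obtain ⟨S, hS, hSg⟩ := hcon g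
    refine ⟨S.image fun i => (e i : ℕ → ℕ), fun f hf => ?_, ?_⟩
    · obtain ⟨i, hi, rfl⟩ := Finset.mem_image.mp hf
      exact ⟨i, hS i hi, rfl⟩
    · filter_upwards [hSg] with k hk
      rw [Finset.sup_image]
      exact hk

theorem Bn_sup {Z : Type} (S : Finset Z) (hS : S.Nonempty) (f : Z → ℕ → ℕ) :
    Bn 1 (fun k => S.sup fun i => f i k) ⊆ ⋃ i ∈ S, Bn 1 (f i) := by
  intro x hx
  by_contra hcon
  have h1 : ∀ i ∈ S, ∀ᶠ k in atTop, f i k < x 0 k := by
    intro i hi
    by_contra h2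
    refine hcon (mem_iUnion₂.mpr ⟨i, hi, fun j hj => ?_⟩)
    obtain rfl : j = 0 := by omega
    have h3 : ∃ᶠ k in atTop, ¬ f i k < x 0 k := not_eventually.mp h2
    exact h3.mono fun k hk => not_lt.mp hk
  have h2 : ∀ᶠ k in atTop, ∀ i ∈ S, f i k < x 0 k := (Finset.eventually_all S).mpr h1
  obtain ⟨k, hk1, hk2⟩ := ((hx 0 (by omega)).and_eventually h2).exists
  obtain ⟨i, hi, hi2⟩ := Finset.exists_mem_eq_sup S hS fun i => f i k
  have h3 := hk2 i hi
  have h4 : x 0 k ≤ S.sup fun i => f i k := hk1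
  rw [hi2] at h4
  omega

theorem J3_plus : cofinPlus J3 < ⊤ := by
  classical
  obtain ⟨κ, f, hκ, hA, hB⟩ := exists_dominating
  have := noMaxOrder hκ
  have hne : Nonempty κ.ord.ToType := by
    obtain ⟨i⟩ : Nonempty κ.ord.ToType := by
      rw [← mk_ne_zero_iff, mk_ord_toType]
      intro h
      rw [h] at hκ
      exact absurd hκ (not_le.mpr aleph0_pos)
    exact ⟨i⟩
  obtain ⟨i0⟩ := hne
  have hne : Nonempty κ.ord.ToType := ⟨i0⟩
  obtain ⟨γ, hγ, -⟩ := exists_hasSeq (Q := IsSigmaIdeal) (Q0 := fun F => ∀ x, {x} ∈ F) (I := J3)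
    (fun α : κ.ord.ToType => {A | ∃ C : Set (Bool × (ℕ → ℕ → ℕ)), C.Countable ∧
      ∃ S : Set κ.ord.ToType, S.Countable ∧ (∀ i ∈ S, i < α) ∧
        A ⊆ C ∪ ⋃ i ∈ S, {true} ×ˢ Bn 1 (f i)}) (by
      intro α
      refine sigma_of ⟨∅, countable_empty, ∅, countable_empty, fun i hi => absurd hi
        (notMem_empty i), empty_subset _⟩ ?_ ?_
      · rintro A ⟨C, hC, S, hS, h1, h2⟩ B hB
        exact ⟨C, hC, S, hS, h1, hB.trans h2⟩
      · intro A hA
        choose C hC S hS h1 h2 using hA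
        refine ⟨⋃ n, C n, countable_iUnion hC, ⋃ n, S n, countable_iUnion hS, ?_, ?_⟩
        · intro i hi
          obtain ⟨n, hn⟩ := mem_iUnion.mp hi
          exact h1 n i hn
        · intro x hx
          obtain ⟨n, hn⟩ := mem_iUnion.mp hx
          rcases h2 n hn with h3 | h3
          · exact Or.inl (mem_iUnion.mpr ⟨n, h3⟩)
          · obtain ⟨i, hi, hxi⟩ := mem_iUnion₂.mp h3
            exact Or.inr (mem_iUnion₂.mpr ⟨i, mem_iUnion.mpr ⟨n, hi⟩, hxi⟩)) (by
      intro α x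
      exact ⟨{x}, countable_singleton x, ∅, countable_empty, fun i hi => absurd hi
        (notMem_empty i), subset_union_left⟩) (by
      rintro α β hαβ A ⟨C, hC, S, hS, h1, h2⟩
      exact ⟨C, hC, S, hS, fun i hi => (h1 i hi).trans_le hαβ, h2⟩) (by
      ext A
      constructor
      · rintro ⟨h1, g, hg⟩
        obtain ⟨S, hS⟩ := hA g
        have hS' : LeStar g fun k => (insert i0 S).sup fun i => f i k := by
          filter_upwards [hS] with k hk
          exact hk.trans (Finset.sup_mono (Finset.subset_insert _ _))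
        obtain ⟨m, hm⟩ := (insert i0 S).exists_le
        obtain ⟨α, hα⟩ := exists_gt m
        refine ⟨α, (fun y => (false, y)) '' bsec A false, h1.image _, ↑(insert i0 S),
          Finset.countable_toSet _, fun i hi => (hm i hi).trans_lt hα, ?_⟩
        rintro ⟨b, y⟩ hy
        cases b with
        | false => exact Or.inl ⟨y, hy, rfl⟩
        | true =>
          right
          have h2 := Bn_sup (insert i0 S) (Finset.insert_nonempty _ _) f (Bn_mono hS' 1 (hg hy))
          obtain ⟨i, hi, hyi⟩ := mem_iUnion₂.mp h2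
          exact mem_iUnion₂.mpr ⟨i, hi, rfl, hyi⟩
      · rintro ⟨α, C, hC, S, hS, -, h2⟩
        refine J3_sigma.1.2.1 _ (J3_sigma.1.2.2 _ (sigma_countable J3_sigma J3_singleton hC) _
          (sigma_biUnion J3_sigma hS (fun i => {true} ×ˢ Bn 1 (f i)) fun i _ => ?_)) _ h2
        refine ⟨countable_empty.mono ?_, f i, fun y hy => hy.2⟩
        rintro y ⟨hy, -⟩
        exact absurd hy Bool.false_ne_true) (by
      intro α hα
      obtain ⟨g, hg⟩ := hB α
      have h1 : ({true} ×ˢ Bn 1 g : Set (Bool × (ℕ → ℕ → ℕ))) ∈ J3 := by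
        refine ⟨countable_empty.mono ?_, g, fun y hy => hy.2⟩
        rintro y ⟨hy, -⟩
        exact absurd hy Bool.false_ne_true
      rw [← hα] at h1
      obtain ⟨C, hC, S, hS, h2, h3⟩ := h1
      -- a function dominating the countably many functions of `S` but not `g`
      have h4 : ∃ v, (∀ i ∈ S, LeStar (f i) v) ∧ ¬ LeStar g v := by
        rcases S.eq_empty_or_nonempty with rfl | hne
        · refine ⟨fun _ => 0, fun i hi => absurd hi (notMem_empty i), ?_⟩
          simpa using hg ∅ (fun i hi => absurd hi (Finset.notMem_empty i))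
        · obtain ⟨s, rfl⟩ := hS.exists_eq_range hne
          obtain ⟨v, hv1, hv2⟩ := diag g (fun n => f (s n)) (by
            intro n hn
            refine hg ((Finset.range (n + 1)).image s) (fun i hi => ?_) ?_
            · obtain ⟨j, -, rfl⟩ := Finset.mem_image.mp hi
              exact h2 _ ⟨j, rfl⟩
            · filter_upwards [hn] with k hk
              rw [Finset.sup_image]
              exact hk)
          refine ⟨v, ?_, hv2⟩
          rintro _ ⟨n, rfl⟩
          exact hv1 n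
      obtain ⟨v, hv1, hv2⟩ := h4
      have := uncountable_baire
      obtain ⟨z, hz⟩ : ∃ z : ℕ → ℕ, z ∉ (fun p : Bool × (ℕ → ℕ → ℕ) => p.2 1) '' C := by
        by_contra hcon
        push Not at hcon
        have h5 : (univ : Set (ℕ → ℕ)).Countable := (hC.image _).mono fun z _ => hcon z
        exact not_countable (countable_univ_iff.mp h5)
      let x : ℕ → ℕ → ℕ := fun i => if i = 0 then fun k => v k + 1 else z
      have hx0 : x 0 = fun k => v k + 1 := rfl
      have hx1 : x 1 = z := rfl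
      have hxg : x ∈ Bn 1 g := by
        intro i hi
        obtain rfl : i = 0 := by omega
        rw [hx0]
        unfold LeStar at hv2
        exact (not_eventually.mp hv2).mono fun k hk => not_le.mp hk
      rcases h3 (show ((true, x) : Bool × (ℕ → ℕ → ℕ)) ∈ _ from ⟨rfl, hxg⟩) with h5 | h5
      · exact hz ⟨_, h5, hx1⟩
      · obtain ⟨i, hi, -, hxi⟩ := mem_iUnion₂.mp h5
        have h6 : ∃ᶠ k in atTop, x 0 k ≤ f i k := hxi 0 (by omega)
        obtain ⟨k, hk1, hk2⟩ := (h6.and_eventually (hv1 i hi)).exists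
        have h7 : x 0 k = v k + 1 := rfl
        rw [h7] at hk1
        omega)
  exact lt_top_of hγ

theorem J3_lt (h : ℵ₁ < bnum) : cofin J3 < cofinPlus J3 := by
  refine J3_cofin.trans_lt (lt_of_lt_of_le ?_ (le_cofinWith fun γ hγ => bnum_le_of_J3 hγ))
  exact WithTop.coe_lt_coe.mpr (ord_lt_ord.mpr h)

end Pool.Agent.R165.Cof
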